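import Pool.Agent.Helper82.NQ.Cnt

/-!
# Odd near superperfect numbers with prime sigma components are very rare
-/

set_option autoImplicit false

namespace Pool.Agent.Results.MP_255fbb_nt.CountingBound

open ArithmeticFunction

/-- `n` is odd, `σ(p ^ a)` is prime for every prime power `p ^ a` exactly dividing `n`, and
`σ(σ(n)) = 2 n + d` for a positive divisor `d` of `n`. -/
def Counterexample (n : ℕ) : Prop :=
  Odd n ∧
  (∀ p a : ℕ, p.Prime → 1 ≤ a → p ^ a ∣ n → ¬ p ^ (a + 1) ∣ n → (sigma 1 (p ^ a)).Prime) ∧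
  ∃ d : ℕ, 0 < d ∧ d ∣ n ∧ sigma 1 (sigma 1 n) = 2 * n + d

open Classical in
/-- There is `C` such that for all `x ≥ 3` at most `x ^ (C / log log x)` numbers `n ≤ x` are
counterexamples. -/
theorem result : ∃ C : ℝ, 0 < C ∧ ∀ x : ℕ, 3 ≤ x →
    (((Finset.Icc 1 x).filter Counterexample).card : ℝ) ≤
      (x : ℝ) ^ (C / Real.log (Real.log x)) := by
  obtain ⟨C, hC, h⟩ := Pool.Agent.Helper45.NQ.hEST Pool.Agent.Helper42.NQ.hENC
  refine ⟨C, hC, fun x hx => le_trans ?_ (h x hx)⟩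
  have h1 : (Finset.Icc 1 x).filter Counterexample ⊆ Pool.Agent.Helper82.NQ.NC x := by
    intro n hn
    rw [Finset.mem_filter] at hn
    unfold Pool.Agent.Helper82.NQ.NC
    rw [Finset.mem_filter]
    exact ⟨hn.1, Pool.Agent.Helper82.NQ.cand_of hn.2.1 hn.2.2.1 hn.2.2.2⟩
  exact_mod_cast Finset.card_le_card h1

end Pool.Agent.Results.MP_255fbb_nt.CountingBound
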