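import Pool.Agent.Helper98.NS.Final

/-!
# Odd near superperfect numbers with prime sigma components: an explicit bound in terms of the
number of prime factors
-/

namespace Pool.Agent.Results.MP_255fbb_nt.FixedOmega

/-- Let `n` be an odd natural number such that `σ(p ^ a)` is prime for every prime power `p ^ a`
exactly dividing `n` and `σ(σ(n)) = 2 n + d` with a positive divisor `d` of `n`, and let `k` be
the number of prime factors of `n`. Then `(n / d) rad(n) n ≤ (7 k) ^ (2 ^ (2 k + 1) - 1)`, in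
particular `n < (7 k) ^ (2 * 4 ^ k)`; hence for every `k` there are only finitely many such `n`
with at most `k` prime factors. -/
theorem result :
    (∀ n d : ℕ, Odd n →
      (∀ p a : ℕ, p.Prime → 1 ≤ a → p ^ a ∣ n → ¬ p ^ (a + 1) ∣ n →
        (ArithmeticFunction.sigma 1 (p ^ a)).Prime) →
      0 < d → d ∣ n →
      ArithmeticFunction.sigma 1 (ArithmeticFunction.sigma 1 n) = 2 * n + d →
      (n / d) * ((∏ p ∈ n.primeFactors, p) * n) ≤
          (7 * n.primeFactors.card) ^ (2 ^ (2 * n.primeFactors.card + 1) - 1) ∧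
        n < (7 * n.primeFactors.card) ^ (2 * 4 ^ n.primeFactors.card)) ∧
    ∀ k : ℕ, {n : ℕ | Odd n ∧
      (∀ p a : ℕ, p.Prime → 1 ≤ a → p ^ a ∣ n → ¬ p ^ (a + 1) ∣ n →
        (ArithmeticFunction.sigma 1 (p ^ a)).Prime) ∧
      (∃ d : ℕ, 0 < d ∧ d ∣ n ∧
        ArithmeticFunction.sigma 1 (ArithmeticFunction.sigma 1 n) = 2 * n + d) ∧
      n.primeFactors.card ≤ k}.Finite :=
  ⟨fun _ _ h1 h2 h3 h4 h5 =>
    ⟨(Pool.Agent.Helper98.NS.bound h1 h2 h3 h4 h5).2,
      Pool.Agent.Helper98.NS.bound_lt h1 h2 h3 h4 h5⟩,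
    Pool.Agent.Helper98.NS.finite_le⟩

end Pool.Agent.Results.MP_255fbb_nt.FixedOmega
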