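import Pool.Agent.Helper82.NQ.Exp
import Pool.Agent.Helper63.NQ.M_SIZE
import Pool.Agent.Helper36.NQ.M_PRD
import Pool.Agent.Helper41.NQ.M_PRM
import Pool.Agent.Helper51.NQ.M_VVB
import Pool.Agent.NearSuper255.Main3

/-!
# Odd near superperfect numbers with prime sigma components: large exponents and size
-/

set_option autoImplicit false

namespace Pool.Agent.Results.MP_255fbb_nt.LargeExponents

open ArithmeticFunction Pool.Agent.Helper82.NQ

/-- Let `n` be an odd near superperfect number such that `σ(p ^ a)` is prime for every prime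
power `p ^ a` exactly dividing `n`. If `p < q` are primes, `p ^ a` and `q ^ b` exactly divide `n`
and `σ(p ^ a) = σ(q ^ b)` then `a ≥ 28`. In particular at least half of the prime factors `p` of
`n` satisfy `p ^ 28 ∣ n`, and `n > 10 ^ 233`. -/
theorem result (n : ℕ) (hodd : Odd n)
    (hP : ∀ p a : ℕ, p.Prime → 1 ≤ a → p ^ a ∣ n → ¬ p ^ (a + 1) ∣ n → (sigma 1 (p ^ a)).Prime)
    (hN : ∃ d : ℕ, 0 < d ∧ d ∣ n ∧ sigma 1 (sigma 1 n) = 2 * n + d) :
    (∀ p a q b : ℕ, p.Prime → q.Prime → p < q → 1 ≤ a → 1 ≤ b →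
      p ^ a ∣ n → ¬ p ^ (a + 1) ∣ n → q ^ b ∣ n → ¬ q ^ (b + 1) ∣ n →
      sigma 1 (p ^ a) = sigma 1 (q ^ b) → 28 ≤ a) ∧
    n.primeFactors.card ≤ 2 * (n.primeFactors.filter (fun p => p ^ 28 ∣ n)).card ∧
    10 ^ 233 < n := by
  have hn0 : n ≠ 0 := hodd.pos.ne'
  have hE := hEXP Pool.Agent.Helper41.NQ.hPRM Pool.Agent.Helper51.NQ.hVVB hodd hP hN
  obtain ⟨hev, hpt⟩ := Pool.Agent.Helper63.NQ.hGRP n hodd hP hN
  have hfac : ∀ p a : ℕ, p.Prime → p ^ a ∣ n → ¬ p ^ (a + 1) ∣ n → n.factorization p = a := by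
    intro p a hp h1 h2
    apply le_antisymm
    · by_contra hc
      push Not at hc
      exact h2 ((hp.pow_dvd_iff_le_factorization hn0).mpr hc)
    · exact (hp.pow_dvd_iff_le_factorization hn0).mp h1
  refine ⟨?_, ?_, ?_⟩
  · intro p a q b hp hq hpq ha hb h1 h2 h3 h4 he
    have hfp := hfac p a hp h1 h2
    have hfq := hfac q b hq h3 h4
    have hpm : p ∈ n.primeFactors :=
      Nat.mem_primeFactors.mpr ⟨hp, (dvd_pow_self p (by omega)).trans h1, hn0⟩
    have hqm : q ∈ n.primeFactors :=
      Nat.mem_primeFactors.mpr ⟨hq, (dvd_pow_self q (by omega)).trans h3, hn0⟩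
    rw [sigma_one_apply_prime_pow hp, sigma_one_apply_prime_pow hq] at he
    have he' : rep p (n.factorization p) = rep q (n.factorization q) := by
      rw [hfp, hfq]
      exact he
    rw [← hfp]
    exact hE p hpm q hqm hpq he'
  · have hmem : ∀ p ∈ n.primeFactors, 28 ≤ n.factorization p → p ^ 28 ∣ n := fun p hp h =>
      ((Nat.prime_of_mem_primeFactors hp).pow_dvd_iff_le_factorization hn0).mpr h
    have hcard : (n.primeFactors.filter (fun p => ¬ p ^ 28 ∣ n)).card ≤
        (n.primeFactors.filter (fun p => p ^ 28 ∣ n)).card := by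
      choose! f hf using hpt
      have hlt : ∀ p ∈ n.primeFactors, ¬ p ^ 28 ∣ n → ∀ q ∈ n.primeFactors, q ≠ p →
          rep q (n.factorization q) = rep p (n.factorization p) → q < p := by
        intro p hp hnd q hq hne he
        rcases Nat.lt_or_gt_of_ne hne with h | h
        · exact h
        · exact absurd (hmem p hp (hE p hp q hq h he.symm)) hnd
      refine Finset.card_le_card_of_injOn f ?_ ?_
      · intro p hp
        simp only [Finset.coe_filter, Set.mem_setOf_eq] at hp ⊢
        obtain ⟨h1, h2, h3⟩ := hf p hp.1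
        exact ⟨h1, hmem _ h1 (hE _ h1 p hp.1 (hlt p hp.1 hp.2 _ h1 h2 h3) h3)⟩
      · intro p hp p' hp' hpp
        simp only [Finset.coe_filter, Set.mem_setOf_eq] at hp hp'
        obtain ⟨h1, h2, h3⟩ := hf p hp.1
        obtain ⟨h1', h2', h3'⟩ := hf p' hp'.1
        have he : rep p (n.factorization p) = rep p' (n.factorization p') := by
          rw [← h3, hpp, h3']
        by_contra hne
        have ha := hlt p hp.1 hp.2 p' hp'.1 (fun h => hne h.symm) he.symm
        have hb := hlt p' hp'.1 hp'.2 p hp.1 hne he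
        omega
    have hsum := Finset.card_filter_add_card_filter_not (s := n.primeFactors) (fun p => p ^ 28 ∣ n)
    omega
  · have hk : 10 ≤ n.primeFactors.card := by
      obtain ⟨m, hm⟩ := NearSuper255.card_even hodd hP hN
      by_contra hlt
      by_cases h3 : 3 ∣ n
      · exact NearSuper255.caseA hodd hP hN h3 (by omega)
      · by_cases h5 : 5 ∣ n
        · exact NearSuper255.case5 hodd hP hN h3 h5 (by omega)
        · exact NearSuper255.case7 hodd hP hN h3 h5 (by omega)
    have h := Pool.Agent.Helper63.NQ.hSIZE Pool.Agent.Helper36.NQ.hPRD n hodd hk hpt hE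
    exact lt_of_lt_of_le (by norm_num) h

end Pool.Agent.Results.MP_255fbb_nt.LargeExponents
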