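import Pool.Agent.NearSuper255.Main3

/-!
# Odd near superperfect numbers with prime sigma components have at least ten prime factors
-/

namespace Pool.Agent.Results.MP_255fbb_nt.TenPrimeFactors

/-- Let `n` be an odd near superperfect number such that `σ(p ^ a)` is prime for every prime
power `p ^ a` exactly dividing `n`. Then the number of distinct prime factors of `n` is even
and at least ten, at least twelve if `5` does not divide `n`, at least sixteen if `3` does not
divide `n`, and at least thirty if neither `3` nor `5` divides `n`. -/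
theorem result (n : ℕ) (hodd : Odd n)
    (hP : ∀ p a : ℕ, p.Prime → 1 ≤ a → p ^ a ∣ n → ¬ p ^ (a + 1) ∣ n →
      (ArithmeticFunction.sigma 1 (p ^ a)).Prime)
    (hN : ∃ d : ℕ, 0 < d ∧ d ∣ n ∧
      ArithmeticFunction.sigma 1 (ArithmeticFunction.sigma 1 n) = 2 * n + d) :
    Even n.primeFactors.card ∧ 10 ≤ n.primeFactors.card ∧
      (¬ 5 ∣ n → 12 ≤ n.primeFactors.card) ∧ (¬ 3 ∣ n → 16 ≤ n.primeFactors.card) ∧
      (¬ 3 ∣ n → ¬ 5 ∣ n → 30 ≤ n.primeFactors.card) := by
  have he : Even n.primeFactors.card := NearSuper255.card_even hodd hP hN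
  obtain ⟨m, hm⟩ := he
  have h35 : ¬ 3 ∣ n → ¬ 5 ∣ n → 30 ≤ n.primeFactors.card := by
    intro h3 h5
    by_contra hlt
    exact NearSuper255.case7 hodd hP hN h3 h5 (by omega)
  have h3' : ¬ 3 ∣ n → 16 ≤ n.primeFactors.card := by
    intro h3
    by_cases h5 : 5 ∣ n
    · by_contra hlt
      exact NearSuper255.case5 hodd hP hN h3 h5 (by omega)
    · have := h35 h3 h5
      omega
  have h5' : ¬ 5 ∣ n → 12 ≤ n.primeFactors.card := by
    intro h5
    by_cases h3 : 3 ∣ n
    · by_contra hlt
      exact NearSuper255.case37 hodd hP hN h3 h5 (by omega)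
    · have := h35 h3 h5
      omega
  refine ⟨⟨m, hm⟩, ?_, h5', h3', h35⟩
  by_contra hlt
  by_cases h3 : 3 ∣ n
  · exact NearSuper255.caseA hodd hP hN h3 (by omega)
  · have := h3' h3
    omega

end Pool.Agent.Results.MP_255fbb_nt.TenPrimeFactors
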